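import Pool.Agent.Helper2.AG.Defs
import Pool.Agent.Helper3.PF.Basic
import Pool.Agent.Helper27.TF.Frame

/-!
Project AG (MP_b8862a_ag), block T2: few roots, bounded dimension.
-/

set_option linter.unusedSectionVars false
set_option linter.unusedVariables false

open Module PF TF PW

namespace AG

section
variable {E : Type*} [NormedAddCommGroup E] [InnerProductSpace ℝ E] {Φ X : Finset E} {n s : ℕ} {l y v : E}

/-- the levels of a weight and of its reflection -/
theorem D3.co_lev (h : D3 Φ X n s l y v) {a x : E} (ha : a ∈ Φ) (hx : x ∈ X) :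
    |co a x| * |(inner ℝ a y : ℝ)| ≤ 2 := by
  have h1 := Sat.refl27 h.wd.sat ha (h.wd.rs.neg_mem ha) hx
  have h2 : (inner ℝ (x - co a x • a) y : ℝ) = inner ℝ x y - co a x * inner ℝ a y := by
    rw [inner_sub_left, inner_smul_left]
    simp
  have hb : ∀ z ∈ X, |(inner ℝ z y : ℝ)| ≤ 1 := by
    intro z hz
    rcases h.lev z hz with h3 | h3 | h3 <;> rw [h3] <;> norm_num
  have h3 := hb _ h1
  have h4 := hb _ hx
  rw [h2] at h3
  rw [← abs_mul]
  rw [abs_le] at h3 h4 ⊢
  constructor <;> linarith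

theorem D3.co_two (h : D3 Φ X n s l y v) {a x : E} (ha : a ∈ Φ) (hy : (inner ℝ a y : ℝ) ≠ 0) (hx : x ∈ X) :
    |co a x| ≤ 2 := by
  have h1 := h.co_lev ha hx
  obtain ⟨k, hk⟩ := h.inn.lev a ha
  rw [hk] at h1 hy
  have h2 : (1 : ℝ) ≤ |(k : ℝ)| := by
    have h3 : k ≠ 0 := by
      rintro rfl
      exact hy (by simp)
    have h4 : (1 : ℤ) ≤ |k| := Int.one_le_abs h3
    exact_mod_cast h4
  have h3 := mul_le_mul_of_nonneg_left h2 (abs_nonneg (co a x))
  linarith

/-- `y` is not orthogonal to the roots -/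
theorem D3.exists_root (h : D3 Φ X n s l y v) : ∃ b ∈ Φ, (inner ℝ b y : ℝ) ≠ 0 := by
  by_contra hcon
  push Not at hcon
  have hy : (inner ℝ y y : ℝ) = 0 := by
    have h1 : ∀ z ∈ Submodule.span ℝ (Φ : Set E), (inner ℝ z y : ℝ) = 0 := by
      intro z hz
      induction hz using Submodule.span_induction with
      | mem x hx => exact hcon x hx
      | zero => simp
      | add x z _ _ h1 h2 => rw [inner_add_left, h1, h2, add_zero]
      | smul c x _ h1 => rw [inner_smul_left, h1, mul_zero]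
    exact h1 y h.inn.y_mem
  have h2 := h.inn.idt
  rw [hy, mul_zero] at h2
  have h3 : (0 : ℝ) < ((8 * s : ℕ) : ℝ) * (finrank ℝ (Submodule.span ℝ (Φ : Set E)) + Φ.card) := by
    have h4 : (0 : ℝ) < ((8 * s : ℕ) : ℝ) := by
      have := h.s_pos
      positivity
    have h5 : (0 : ℝ) < (Φ.card : ℝ) := by
      exact_mod_cast Finset.card_pos.2 h.wd.rs.nonempty
    positivity
  linarith

/-- a root orthogonal to `y` is not orthogonal to all roots of nonzero level -/
theorem D3.exists_nb (h : D3 Φ X n s l y v) {a : E} (ha : a ∈ Φ) (hy : (inner ℝ a y : ℝ) = 0) :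
    ∃ b ∈ Φ, (inner ℝ b y : ℝ) ≠ 0 ∧ (inner ℝ a b : ℝ) ≠ 0 := by
  classical
  by_contra hcon
  push Not at hcon
  let S : Finset E := Φ.filter fun a => (inner ℝ a y : ℝ) = 0 ∧ ∀ b ∈ Φ, (inner ℝ b y : ℝ) ≠ 0 → (inner ℝ a b : ℝ) = 0
  have hS : S = Φ := by
    refine h.wd.rs.irr S (Finset.filter_subset _ _) ⟨a, Finset.mem_filter.2 ⟨ha, hy, hcon⟩⟩ ?_
    intro a' ha' c hc hcS
    obtain ⟨ha1, ha2, ha3⟩ := Finset.mem_filter.1 ha'
    by_cases hcy : (inner ℝ c y : ℝ) = 0
    · have h1 : ∃ b ∈ Φ, (inner ℝ b y : ℝ) ≠ 0 ∧ (inner ℝ c b : ℝ) ≠ 0 := by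
        by_contra h2
        push Not at h2
        exact hcS (Finset.mem_filter.2 ⟨hc, hcy, h2⟩)
      obtain ⟨b, hb, hby, hcb⟩ := h1
      have h2 := h.wd.rs.refl c hc b hb
      have h3 : (inner ℝ (b - co c b • c) y : ℝ) ≠ 0 := by
        rw [inner_sub_left, inner_smul_left, hcy, mul_zero, sub_zero]
        exact hby
      have h4 := ha3 _ h2 h3
      rw [inner_sub_right, inner_smul_right, ha3 b hb hby, zero_sub, neg_eq_zero, mul_eq_zero] at h4
      rcases h4 with h4 | h4
      · exfalso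
        unfold co at h4
        have h5 := (h.wd.rs.inner_pos hc).ne'
        rw [div_eq_zero_iff] at h4
        rcases h4 with h4 | h4
        · rw [real_inner_comm] at h4
          exact hcb (by linarith)
        · exact h5 h4
      · exact h4
    · exact ha3 c hc hcy
  obtain ⟨b, hb, hby⟩ := h.exists_root
  rw [← hS] at hb
  exact hby (Finset.mem_filter.1 hb).2.1

theorem D3.co_four (h : D3 Φ X n s l y v) {a x : E} (ha : a ∈ Φ) (hx : x ∈ X) : |co a x| ≤ 4 := by
  by_cases hy : (inner ℝ a y : ℝ) = 0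
  · obtain ⟨b, hb, hby, hab⟩ := h.exists_nb ha hy
    have ha0 := h.wd.rs.inner_pos ha
    have hb0 := h.wd.rs.inner_pos hb
    have h1 := h.co_two hb hby hx
    -- the reflected root
    have hc : b - co a b • a ∈ Φ := h.wd.rs.refl a ha b hb
    have hcy : (inner ℝ (b - co a b • a) y : ℝ) ≠ 0 := by
      rw [inner_sub_left, inner_smul_left, hy, mul_zero, sub_zero]
      exact hby
    have h2 := h.co_two hc hcy hx
    have h3 : (inner ℝ (b - co a b • a) (b - co a b • a) : ℝ) = inner ℝ b b := h.wd.rs.inner_refl ha b b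
    obtain ⟨k, hk⟩ := h.wd.rs.int b hb a ha
    have hk0 : (1 : ℝ) ≤ |co b a| := by
      rw [hk]
      have h4 : k ≠ 0 := by
        rintro rfl
        unfold co at hk
        rw [Int.cast_zero, div_eq_zero_iff] at hk
        rcases hk with hk | hk
        · exact hab (by linarith)
        · exact hb0.ne' hk
      have h5 : (1 : ℤ) ≤ |k| := Int.one_le_abs h4
      exact_mod_cast h5
    -- co_a b (a, x) = (b, x) - (c, x)
    have h5 : co a b * (inner ℝ x a : ℝ) = inner ℝ x b - inner ℝ x (b - co a b • a) := by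
      rw [inner_sub_right, inner_smul_right]
      ring
    have h6 : (inner ℝ x b : ℝ) = co b x * inner ℝ b b / 2 := by
      unfold co
      field_simp
    have h7 : (inner ℝ x (b - co a b • a) : ℝ) = co (b - co a b • a) x * inner ℝ b b / 2 := by
      unfold co
      rw [show (inner ℝ (b - (2 * inner ℝ b a / inner ℝ a a) • a) (b - (2 * inner ℝ b a / inner ℝ a a) • a) : ℝ) =
        inner ℝ b b from h3]
      field_simp
    have h8 : co a b * (inner ℝ a a : ℝ) = co b a * inner ℝ b b := by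
      unfold co
      rw [real_inner_comm]
      field_simp
    have h9 : (inner ℝ x a : ℝ) = co a x * inner ℝ a a / 2 := by
      unfold co
      field_simp
    have h10 : co b a * co a x = co b x - co (b - co a b • a) x := by
      rw [h6, h7, h9] at h5
      have h11 : co b a * inner ℝ b b * co a x = (co b x - co (b - co a b • a) x) * inner ℝ b b := by
        rw [← h8]
        linarith
      have h12 := hb0.ne'
      have h13 : (co b a * co a x - (co b x - co (b - co a b • a) x)) * inner ℝ b b = 0 := by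
        linarith
      rcases mul_eq_zero.1 h13 with h14 | h14
      · linarith
      · exact absurd h14 h12
    have h11 : |co b a| * |co a x| ≤ 4 := by
      rw [← abs_mul, h10]
      have := abs_sub (co b x) (co (b - co a b • a) x)
      linarith
    have h12 := mul_le_mul_of_nonneg_right hk0 (abs_nonneg (co a x))
    linarith
  · exact (h.co_two ha hy hx).trans (by norm_num)

theorem D3.le_pow (h : D3 Φ X n s l y v) : n ≤ 9 ^ Φ.card := by
  classical
  have hv : ∀ a ∈ Ps Φ v, ∃ k : ℤ, co a v = k := by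
    intro a ha
    have ha' := (Finset.mem_filter.1 ha).1
    have h1 : co a v = ∑ b ∈ Ps Φ v, co a b := by
      conv_lhs => rw [h.wd.v_eq]
      unfold co
      rw [sum_inner, Finset.mul_sum, Finset.sum_div]
    choose! k hk using fun b (hb : b ∈ Φ) => h.wd.rs.int a ha' b hb
    refine ⟨∑ b ∈ Ps Φ v, k b, ?_⟩
    rw [h1, Int.cast_sum]
    exact Finset.sum_congr rfl fun b hb => hk b (Finset.mem_filter.1 hb).1
  have hle : ∀ a ∈ Ps Φ v, 0 ≤ (inner ℝ ((2 : ℝ) • l + v) a : ℝ) ∧
      (inner ℝ ((2 : ℝ) • l + v) a : ℝ) ≤ 9 * inner ℝ v a := by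
    intro a ha
    have ha' := (Finset.mem_filter.1 ha).1
    have ha1 := (Finset.mem_filter.1 ha).2
    have ha0 := h.wd.rs.inner_pos ha'
    have hl := h.wd.dom a ha
    rw [inner_add_left, inner_smul_left]
    simp only [conj_trivial]
    refine ⟨by positivity, ?_⟩
    obtain ⟨k, hk⟩ := hv a ha
    have h1 : (inner ℝ v a : ℝ) = k * inner ℝ a a / 2 := by
      rw [← hk]
      unfold co
      field_simp
    have hk0 : 0 < k := by
      by_contra hc
      push Not at hc
      have h2 : (k : ℝ) ≤ 0 := by exact_mod_cast hc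
      have h3 : (k : ℝ) * inner ℝ a a ≤ 0 := mul_nonpos_of_nonpos_of_nonneg h2 ha0.le
      linarith
    have hk1 : (1 : ℝ) ≤ k := by exact_mod_cast hk0
    have h2 : (inner ℝ l a : ℝ) = co a l * inner ℝ a a / 2 := by
      unfold co
      field_simp
    have h3 := (abs_le.1 (h.co_four ha' h.wd.l_mem)).2
    have h4 : co a l * inner ℝ a a ≤ 4 * (k * inner ℝ a a) := by
      have h5 : co a l * inner ℝ a a ≤ 4 * inner ℝ a a := mul_le_mul_of_nonneg_right h3 ha0.le
      have h6 : (inner ℝ a a : ℝ) ≤ k * inner ℝ a a := by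
        have := mul_le_mul_of_nonneg_right hk1 ha0.le
        linarith
      linarith
    linarith
  have hpos : 0 < ∏ a ∈ Ps Φ v, (inner ℝ v a : ℝ) :=
    Finset.prod_pos fun a ha => (Finset.mem_filter.1 ha).2
  have h1 : (n : ℝ) * ∏ a ∈ Ps Φ v, (inner ℝ v a : ℝ) ≤ 9 ^ (Ps Φ v).card * ∏ a ∈ Ps Φ v, (inner ℝ v a : ℝ) := by
    rw [h.wd.dim, ← Finset.prod_const, ← Finset.prod_mul_distrib]
    exact Finset.prod_le_prod (fun a ha => (hle a ha).1) fun a ha => (hle a ha).2
  have h2 : (n : ℝ) ≤ 9 ^ (Ps Φ v).card := le_of_mul_le_mul_right h1 hpos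
  have h3 : n ≤ 9 ^ (Ps Φ v).card := by exact_mod_cast h2
  exact h3.trans (Nat.pow_le_pow_right (by norm_num) (Finset.card_le_card (Finset.filter_subset _ _)))

end

/-- BLOCK T2 (helper98) -/
theorem small (N : ℕ) : ∃ C₀ : ℕ, ∀ {ι : Type} [Fintype ι] {Φ X : Finset (EuclideanSpace ℝ ι)} {n s : ℕ}
    {l y v : EuclideanSpace ℝ ι}, D3 Φ X n s l y v → Φ.card ≤ N → s ≤ C₀ := by
  refine ⟨9 ^ N, fun {ι} _ {Φ X n s l y v} h hN => ?_⟩
  have h1 := h.le_pow
  have h2 := h.h_pos
  have h3 : 9 ^ Φ.card ≤ 9 ^ N := Nat.pow_le_pow_right (by norm_num) hN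
  omega

end AG
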