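import Pool.Agent.Helper2.AG.Defs
import Pool.Agent.Helper43.PW.DimR

/-!
Project AG (MP_b8862a_ag): the dimension `(m - 1) (2 m + 1)` of the traceless exterior square, type `C_m`.
-/

set_option linter.unusedSectionVars false
set_option linter.unusedVariables false

open Module PF TF PW

namespace AG

/-- `∏ (4 M^2 - 4 j^2)`, `1 ≤ j ≤ k` -/
theorem prod_sq98 (k : ℕ) : ∀ M : ℕ, k < M → (∏ t ∈ Finset.range k, ((2 * (M : ℝ)) ^ 2 - (2 * ((t : ℝ) + 1)) ^ 2)) *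
    (((M - k - 1).factorial : ℝ) * (M : ℝ)) = (4 : ℝ) ^ k * ((M + k).factorial : ℝ) := by
  induction k with
  | zero =>
    intro M hM
    have h1 : M = (M - 1) + 1 := by omega
    rw [Finset.prod_range_zero, Nat.sub_zero, Nat.add_zero, pow_zero, one_mul, one_mul]
    conv_rhs => rw [h1, Nat.factorial_succ]
    have h2 : ((M - 1 + 1 : ℕ) : ℝ) = (M : ℝ) := by rw [← h1]
    rw [Nat.cast_mul, h2]
    ring
  | succ k ih =>
    intro M hM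
    have h1 := ih M (by omega)
    rw [Finset.prod_range_succ]
    have h2 : M - k - 1 = (M - (k + 1) - 1) + 1 := by omega
    rw [h2, Nat.factorial_succ, Nat.cast_mul] at h1
    have h3 : ((M - (k + 1) - 1 + 1 : ℕ) : ℝ) = (M : ℝ) - k - 1 := by
      have h4 : M - (k + 1) - 1 + 1 + (k + 1) = M := by omega
      have h5 : ((M - (k + 1) - 1 + 1 + (k + 1) : ℕ) : ℝ) = M := by rw [h4]
      push_cast at h5 ⊢
      linarith
    rw [h3] at h1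
    have h6 : M + (k + 1) = (M + k) + 1 := by omega
    rw [h6, Nat.factorial_succ, Nat.cast_mul, pow_succ (4 : ℝ)]
    push_cast
    linear_combination (4 * ((M : ℝ) + k + 1)) * h1

/-- the same product over `Fin k`, in the opposite order -/
theorem prod_rev98 (k : ℕ) (f : ℝ → ℝ) : ∏ j : Fin k, f ((k : ℝ) - (j : ℕ)) = ∏ t ∈ Finset.range k, f ((t : ℝ) + 1) := by
  rw [← Finset.prod_range_reflect, Finset.prod_range]
  refine Finset.prod_congr rfl fun j _ => ?_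
  congr 1
  have h1 : k - 1 - (j : ℕ) + 1 + j = k := by have := j.2; omega
  have h2 : ((k - 1 - (j : ℕ) + 1 + j : ℕ) : ℝ) = k := by rw [h1]
  push_cast at h2
  linarith

/-- Weyl's product for two free coordinates -/
theorem prod_two98 (k : ℕ) (y : Fin (k + 2) → ℝ) :
    (∏ i, ∏ j ∈ Finset.Ioi i, (y i ^ 2 - y j ^ 2)) * ∏ i, y i =
      ((y 0 ^ 2 - y 1 ^ 2) * (∏ j : Fin k, (y 0 ^ 2 - y j.succ.succ ^ 2)) * (∏ j : Fin k, (y 1 ^ 2 - y j.succ.succ ^ 2)) *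
        (y 0 * y 1)) * ((∏ i : Fin k, ∏ j ∈ Finset.Ioi i, (y i.succ.succ ^ 2 - y j.succ.succ ^ 2)) *
        ∏ i : Fin k, y i.succ.succ) := by
  rw [Fin.prod_univ_succ, Fin.prod_univ_succ (fun i => y i), Fin.prod_Ioi_zero, Fin.prod_univ_succ,
    Fin.prod_univ_succ (fun i : Fin (k + 1) => ∏ j ∈ Finset.Ioi i.succ, (y i.succ ^ 2 - y j ^ 2)),
    Fin.prod_univ_succ (fun i : Fin (k + 1) => y i.succ)]
  simp only [Fin.prod_Ioi_succ, Fin.prod_Ioi_zero]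
  simp only [Fin.succ_zero_eq_one]
  ring

/-- two boxes -/
theorem two_boxes98 (k : ℕ) (w : Fin (k + 2) → ℤ) (h1 : ∀ i j, i < j → |w j| ≤ w i) (h2 : ∀ i, |w i| ≤ 1)
    (h3 : ∑ i, |w i| = 2) (h0 : 1 ≤ k) : w 0 = 1 ∧ w 1 = 1 ∧ ∀ i : Fin k, w i.succ.succ = 0 := by
  rw [Fin.sum_univ_succ, Fin.sum_univ_succ, Fin.succ_zero_eq_one] at h3
  have h4 : |w 1| ≤ w 0 := h1 0 1 (by
    rw [Fin.lt_def]
    simp)
  have h5 : ∀ i : Fin k, |w i.succ.succ| ≤ w 1 := fun i => h1 1 _ (by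
    rw [Fin.lt_def]
    simp)
  have h6 := h2 0
  have h7 := h2 1
  have h8 : 0 ≤ w 1 := (abs_nonneg _).trans (h5 ⟨0, h0⟩)
  have h9 : 0 ≤ w 0 := (abs_nonneg _).trans h4
  rw [abs_of_nonneg h9] at h3 h6
  rw [abs_of_nonneg h8] at h3 h7 h4
  have h10 : w 1 = 1 := by
    by_contra hc
    have h11 : w 1 = 0 := by omega
    have h12 : ∑ i : Fin k, |w i.succ.succ| = 0 := by
      refine Finset.sum_eq_zero fun i _ => ?_
      have := h5 i
      have := abs_nonneg (w i.succ.succ)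
      omega
    omega
  have h11 : w 0 = 1 := by omega
  refine ⟨h11, h10, fun i => ?_⟩
  have h12 : ∑ i : Fin k, |w i.succ.succ| = 0 := by omega
  have h13 := (Finset.sum_eq_zero_iff_of_nonneg (fun i _ => abs_nonneg _)).1 h12 i (Finset.mem_univ _)
  exact abs_eq_zero.1 h13

section
variable {E : Type*} [NormedAddCommGroup E] [InnerProductSpace ℝ E] {Φ X : Finset E} {n s m : ℕ} {l y v : E} {c : ℝ}

theorem dim_C98 {e : Fin m → E} (h : Wd Φ X n l v) (F : Fr Φ m e c 2) (hm : 3 ≤ m) {z : Fin m → ℤ}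
    (hz : ∀ i, cx e c l i = z i) (h1 : ∀ i, |z i| ≤ 1) (h2 : ∑ i, |z i| = 2) : n = (m - 1) * (2 * m + 1) := by
  have hc := F.pos
  obtain ⟨σ, t, ht, hs1, hs2, hs3, hs4⟩ := dim_frR h F (k := fun i => (z i : ℝ)) (by
    intro i
    rw [← hz i]
    unfold cx
    field_simp)
  obtain ⟨k, rfl⟩ : ∃ k, m = k + 2 := ⟨m - 2, by omega⟩
  let w : Fin (k + 2) → ℤ := fun i => t i * z (σ i)
  have habs : ∀ i, |w i| = |z (σ i)| := by
    intro i
    simp only [w]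
    rw [abs_mul]
    rcases ht i with h | h <;> rw [h] <;> simp
  have hw := two_boxes98 k w (by
      intro i j hij
      have := hs1 i j hij
      have h3 : ((|w j| : ℤ) : ℝ) ≤ ((w i : ℤ) : ℝ) := by
        simp only [w]
        push_cast
        exact this
      exact_mod_cast h3) (fun i => by rw [habs]; exact h1 _) (by
      simp only [habs]
      rw [Equiv.sum_comp σ (fun i => |z i|)]
      exact h2) (by omega)
  obtain ⟨hw0, hw1, hw2⟩ := hw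
  unfold PdR at hs3 hs4
  rw [if_neg (by norm_num : (2 : ℕ) ≠ 0), if_neg (by norm_num : (2 : ℕ) ≠ 0)] at hs3
  rw [if_neg (by norm_num : (2 : ℕ) ≠ 0)] at hs4
  have hcoe : ∀ i, (2 * ((t i : ℝ) * (z (σ i) : ℝ)) + (Vd 2 (k + 2) i : ℝ)) = 2 * (w i : ℝ) + (Vd 2 (k + 2) i : ℝ) := by
    intro i
    simp only [w]
    push_cast
    ring
  simp only [hcoe, Pi.zero_apply, mul_zero, zero_add] at hs3 hs4
  rw [prod_two98 k (fun i => (Vd 2 (k + 2) i : ℝ)), prod_two98 k (fun i => 2 * (w i : ℝ) + (Vd 2 (k + 2) i : ℝ))] at hs3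
  rw [prod_two98 k (fun i => (Vd 2 (k + 2) i : ℝ))] at hs4
  have hV0 : (Vd 2 (k + 2) 0 : ℝ) = 2 * ((k + 2 : ℕ) : ℝ) := by
    unfold Vd
    push_cast
    simp
    ring
  have hV1 : (Vd 2 (k + 2) 1 : ℝ) = 2 * ((k + 1 : ℕ) : ℝ) := by
    unfold Vd
    push_cast
    simp
    ring
  have hV2 : ∀ j : Fin k, (Vd 2 (k + 2) j.succ.succ : ℝ) = 2 * ((k : ℝ) - (j : ℕ)) := by
    intro j
    unfold Vd
    push_cast
    simp
    ring
  simp only [hw0, hw1, hw2, hV0, hV1, hV2, Int.cast_one, Int.cast_zero, mul_zero, zero_add, mul_one] at hs3 hs4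
  have e0 : (2 + 2 * ((k + 2 : ℕ) : ℝ)) = 2 * ((k + 3 : ℕ) : ℝ) := by push_cast; ring
  have e1 : (2 + 2 * ((k + 1 : ℕ) : ℝ)) = 2 * ((k + 2 : ℕ) : ℝ) := by push_cast; ring
  rw [e0, e1] at hs3
  rw [prod_rev98 k (fun x => (2 * ((k + 2 : ℕ) : ℝ)) ^ 2 - (2 * x) ^ 2),
    prod_rev98 k (fun x => (2 * ((k + 1 : ℕ) : ℝ)) ^ 2 - (2 * x) ^ 2)] at hs3 hs4
  rw [prod_rev98 k (fun x => (2 * ((k + 3 : ℕ) : ℝ)) ^ 2 - (2 * x) ^ 2)] at hs3
  have p1 := prod_sq98 k (k + 1) (by omega)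
  have p3 := prod_sq98 k (k + 3) (by omega)
  have f1 : k + 1 - k - 1 = 0 := by omega
  have f3 : k + 3 - k - 1 = 2 := by omega
  rw [f1] at p1
  rw [f3] at p3
  have g1 : k + 3 + k = (k + 1 + k) + 1 + 1 := by omega
  rw [g1, Nat.factorial_succ (k + 1 + k + 1), Nat.factorial_succ (k + 1 + k)] at p3
  set B1 := ∏ t ∈ Finset.range k, ((2 * ((k + 1 : ℕ) : ℝ)) ^ 2 - (2 * ((t : ℝ) + 1)) ^ 2) with hB1
  set B2 := ∏ t ∈ Finset.range k, ((2 * ((k + 2 : ℕ) : ℝ)) ^ 2 - (2 * ((t : ℝ) + 1)) ^ 2) with hB2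
  set B3 := ∏ t ∈ Finset.range k, ((2 * ((k + 3 : ℕ) : ℝ)) ^ 2 - (2 * ((t : ℝ) + 1)) ^ 2) with hB3
  set R1 := ∏ i : Fin k, ∏ j ∈ Finset.Ioi i, ((2 * ((k : ℝ) - ((i : ℕ) : ℝ))) ^ 2 - (2 * ((k : ℝ) - ((j : ℕ) : ℝ))) ^ 2) with hR1
  set R2 := ∏ i : Fin k, (2 * ((k : ℝ) - ((i : ℕ) : ℝ))) with hR2
  have hR : R1 * R2 ≠ 0 := by
    intro h0
    rw [h0, mul_zero] at hs4
    exact lt_irrefl _ hs4
  have hB2' : B2 ≠ 0 := by
    intro h0
    rw [h0] at hs4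
    simp at hs4
  have h5 := mul_right_cancel₀ hR (show ((n : ℝ) * (((2 * ((k + 2 : ℕ) : ℝ)) ^ 2 - (2 * ((k + 1 : ℕ) : ℝ)) ^ 2) * B2 * B1 *
    (2 * ((k + 2 : ℕ) : ℝ) * (2 * ((k + 1 : ℕ) : ℝ))))) * (R1 * R2) = (((2 * ((k + 3 : ℕ) : ℝ)) ^ 2 -
      (2 * ((k + 2 : ℕ) : ℝ)) ^ 2) * B3 * B2 * (2 * ((k + 3 : ℕ) : ℝ) * (2 * ((k + 2 : ℕ) : ℝ)))) * (R1 * R2) by
    rw [← hs3]; ring)
  have hk : ((k + 2 : ℕ) : ℝ) ≠ 0 := by positivity
  have h6 : (n : ℝ) * (2 * (k : ℝ) + 3) * (B1 * ((k + 1 : ℕ) : ℝ)) = (2 * (k : ℝ) + 5) * (B3 * ((k + 3 : ℕ) : ℝ)) := by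
    refine mul_left_cancel₀ hB2' (mul_left_cancel₀ hk ?_)
    push_cast at h5 ⊢
    linear_combination h5 / 16
  rw [Nat.factorial_zero, Nat.cast_one, one_mul] at p1
  have h7 : B3 * ((k + 3 : ℕ) : ℝ) = 4 ^ k * ((((k + 1 + k) + 1 + 1 : ℕ) : ℝ) * (((k + 1 + k) + 1 : ℕ) : ℝ) *
      ((k + 1 + k).factorial : ℝ)) / 2 := by
    have h8 : ((2 : ℕ).factorial : ℝ) = 2 := by norm_num [Nat.factorial]
    rw [h8] at p3
    push_cast at p3 ⊢
    linarith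
  rw [p1, h7] at h6
  have h8 : (4 ^ k * ((k + 1 + k).factorial : ℝ)) ≠ 0 := by positivity
  have h9 : (2 * (k : ℝ) + 3) ≠ 0 := by positivity
  have h10 : (n : ℝ) = ((k : ℝ) + 1) * (2 * k + 5) := by
    refine mul_left_cancel₀ h9 (mul_left_cancel₀ h8 ?_)
    push_cast at h6 ⊢
    linear_combination h6
  have h11 : k + 2 - 1 = k + 1 := by omega
  rw [h11]
  have h12 : ((n : ℕ) : ℝ) = (((k + 1) * (2 * (k + 2) + 1) : ℕ) : ℝ) := by
    push_cast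
    rw [h10]
    ring
  exact_mod_cast h12

end

end AG
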