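import Pool.Agent.Helper98.AG.DimC
import Pool.Agent.Helper27.TF.BcdMain

/-!
Project AG (MP_b8862a_ag), block X3: the exterior square, types `B_m`, `C_m`, `D_m`, `y = ± e_p / c`.
-/

set_option linter.unusedSectionVars false
set_option linter.unusedVariables false

open Module PF TF PW

namespace AG

section
variable {E : Type*} [NormedAddCommGroup E] [InnerProductSpace ℝ E] {Φ X : Finset E} {n s m d : ℕ} {l y v : E} {c : ℝ}

/-- BLOCK X3 (helper98) -/
theorem exc_D {e : Fin m → E} (h : D3 Φ X n s l y v) (hs : ShD2 Φ m e c d 2 l y) : Exc s (n - 2 * s) := by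
  classical
  obtain ⟨F, hm, ⟨p, hp, hpj⟩, z, hz, hle1, hz2⟩ := hs
  have hc := F.pos
  have hc2 : (0 : ℝ) < c ^ 2 := by positivity
  have hm2 : 2 ≤ m := by omega
  have hlsp := Sat.span27 h.wd.sat h.wd.l_mem
  have hln := F.norm_eq hm2 hlsp z hz
  have hidt := h.inn.idt
  rw [F.finrank hm2] at hidt
  -- the norm of `y`
  have hyy : c ^ 2 * (inner ℝ y y : ℝ) = 1 := by
    rw [F.inner_eq hm2 h.inn.y_mem, Finset.sum_eq_single p (fun j _ hj => by rw [hpj j hj, mul_zero])
      (fun h => absurd (Finset.mem_univ p) h)]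
    have h1 : c ^ 2 * ((inner ℝ y (e p) : ℝ) * inner ℝ y (e p)) = (|(inner ℝ y (e p) : ℝ)| * c) ^ 2 := by
      rw [mul_pow, sq_abs]
      ring
    rw [h1, hp, one_pow]
  -- the shape of the highest weight
  have hsumtwo : ∀ (f : ℤ → ℝ), f 0 = 0 → ∀ (z : Fin m → ℤ) (k l : Fin m), k ≠ l →
      (∀ j, j ≠ k → j ≠ l → z j = 0) → ∑ i, f (z i) = f (z k) + f (z l) := by
    intro f hf z k l hkl hj
    rw [← Finset.add_sum_erase _ _ (Finset.mem_univ k),
      ← Finset.add_sum_erase _ _ (Finset.mem_erase.2 ⟨hkl.symm, Finset.mem_univ l⟩),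
      Finset.sum_eq_zero, add_zero]
    intro i hi
    have h1 := Finset.mem_erase.1 hi
    rw [hj i (Finset.mem_erase.1 h1.2).1 h1.1, hf]
  obtain ⟨k, k', hkk, hk, hk', hj⟩ : ∃ k l, k ≠ l ∧ |z k| = 1 ∧ |z l| = 1 ∧ ∀ j, j ≠ k → j ≠ l → z j = 0 := by
    rcases small_z (z := z) (by rw [hz2]; norm_num) with hz0 | ⟨k, hk, hj⟩ | ⟨k, hk, hj⟩ | h4
    · exfalso
      simp [hz0] at hz2
    · exfalso
      have h1 : ∑ i, |z i| = |z k| := Finset.sum_eq_single k (fun i _ hi => by rw [hj i hi, abs_zero])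
        (fun h => absurd (Finset.mem_univ k) h)
      rw [h1, hk] at hz2
      norm_num at hz2
    · exfalso
      have := hle1 k
      omega
    · exact h4
  have hz1 : ∀ i, (i = k ∨ i = k') → (z i = 1 ∨ z i = -1) := by
    rintro i (rfl | rfl)
    · rcases abs_cases (z i) with h | h <;> omega
    · rcases abs_cases (z i) with h | h <;> omega
  have hzk2 : (z k : ℝ) ^ 2 = 1 := by
    have : (z k) ^ 2 = 1 := by rw [← sq_abs, hk]; norm_num
    exact_mod_cast this
  have hzk2' : (z k' : ℝ) ^ 2 = 1 := by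
    have : (z k') ^ 2 = 1 := by rw [← sq_abs, hk']; norm_num
    exact_mod_cast this
  have hs1 : ∑ i, (z i : ℝ) ^ 2 = 2 := by
    rw [hsumtwo (fun x => (x : ℝ) ^ 2) (by norm_num) z k k' hkk hj, hzk2, hzk2']
    norm_num
  have hl1 : (inner ℝ l l : ℝ) = 2 * c ^ 2 := by
    rw [hln, hs1]; ring
  have hcas := F.cas_eq hm2 hlsp z hz
  have habs : |(z k : ℝ)| = 1 := by
    rw [← Int.cast_abs, hk]; norm_num
  have habs' : |(z k' : ℝ)| = 1 := by
    rw [← Int.cast_abs, hk']; norm_num
  have hs2 : ∑ i, |(z i : ℝ)| = 2 := by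
    rw [hsumtwo (fun x => |(x : ℝ)|) (by norm_num) z k k' hkk hj, habs, habs']
    norm_num
  have hs3 : ∑ p ∈ (Finset.univ : Finset (Fin m)).offDiag, max |(z p.1 : ℝ)| |(z p.2 : ℝ)| = 4 * m - 6 := by
    have h01 : ∀ i, |(z i : ℝ)| = 0 ∨ |(z i : ℝ)| = 1 := by
      intro i
      have h1 := hle1 i
      have h2 : |z i| = 0 ∨ |z i| = 1 := by
        have := abs_nonneg (z i)
        omega
      rcases h2 with h2 | h2
      · left; rw [← Int.cast_abs, h2]; norm_num
      · right; rw [← Int.cast_abs, h2]; norm_num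
    have h1 : ∑ p ∈ (Finset.univ : Finset (Fin m)).offDiag, max |(z p.1 : ℝ)| |(z p.2 : ℝ)| =
        ∑ p ∈ (Finset.univ : Finset (Fin m)).offDiag,
          (|(z p.1 : ℝ)| + |(z p.2 : ℝ)| - |(z p.1 : ℝ)| * |(z p.2 : ℝ)|) := by
      refine Finset.sum_congr rfl fun p _ => ?_
      rcases h01 p.1 with h2 | h2 <;> rcases h01 p.2 with h3 | h3 <;> rw [h2, h3] <;> norm_num
    rw [h1, sum_off (fun i j => |(z i : ℝ)| + |(z j : ℝ)| - |(z i : ℝ)| * |(z j : ℝ)|)]
    simp only [Finset.sum_sub_distrib, Finset.sum_add_distrib, Finset.sum_const, Finset.card_univ,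
      Fintype.card_fin, nsmul_eq_mul, ← Finset.mul_sum, ← Finset.sum_mul, abs_mul_abs_self]
    have h4 : ∑ i, (z i : ℝ) * z i = 2 := by
      rw [← hs1]
      exact Finset.sum_congr rfl fun i _ => by ring
    rw [hs2, h4]
    ring
  rw [hs1, hs2, hs3] at hcas
  have hcard := F.card
  have hsn := h.h_pos
  have hs0 := h.s_pos
  -- the identity
  have hid : (n : ℝ) * (4 * m - 4 + 2 * d) = 2 * s * (m + Φ.card) := by
    rw [hcas] at hidt
    push_cast at hidt
    have h1 : (n : ℝ) * (4 * m - 4 + 2 * d) * (4 * (c ^ 2 * inner ℝ y y)) = 2 * s * (m + Φ.card) * 4 := by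
      linear_combination hidt
    rw [hyy] at h1
    linarith
  by_cases hd : d = 2
  · subst hd
    have hn : n = (m - 1) * (2 * m + 1) := dim_C98 h.wd F (by omega) hz hle1 (by rw [hz2]; norm_num)
    rw [if_neg (by norm_num : (2 : ℕ) ≠ 0)] at hcard
    have hm1 : ((m - 1 : ℕ) : ℝ) = (m : ℝ) - 1 := by
      rw [Nat.cast_sub (by omega)]
      norm_num
    have hnr : (n : ℝ) = ((m : ℝ) - 1) * (2 * m + 1) := by
      rw [hn]
      push_cast
      rw [hm1]
    have hs4 : (s : ℝ) = 2 * ((m : ℝ) - 1) := by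
      rw [hcard, hnr] at hid
      have h1 : ((m : ℝ) * (2 * m + 1)) ≠ 0 := by
        have : (0 : ℝ) < m := by
          have : 0 < m := by omega
          exact_mod_cast this
        positivity
      refine mul_left_cancel₀ h1 ?_
      push_cast at hid
      linear_combination -hid / 2
    have hs5 : s = 2 * (m - 1) := by
      have : (s : ℝ) = ((2 * (m - 1) : ℕ) : ℝ) := by
        rw [hs4]
        push_cast
        rw [hm1]
      exact_mod_cast this
    obtain ⟨q, hq⟩ : ∃ q, m = q + 1 := ⟨m - 1, by omega⟩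
    subst hq
    rw [Nat.add_sub_cancel] at hs5 hn
    right; right; right; right; left
    refine ⟨by omega, ⟨q, by omega⟩, ?_⟩
    have h5 : n - 2 * s + 2 * s = n := by omega
    have h6 : 2 * (n - 2 * s) + s + 3 * s = 2 * n := by omega
    have h7 : 2 * n = s ^ 2 + 3 * s := by
      rw [hn, hs5]
      ring
    omega
  · have hd1 : d ≤ 1 := by have := F.le; omega
    have hadj : n = finrank ℝ (Submodule.span ℝ (Φ : Set E)) + Φ.card := by
      refine h.adj ?_ fun a ha => ?_
      · have h1 := F.rt_mem hkk (hz1 k (Or.inl rfl)) (hz1 k' (Or.inr rfl))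
        have h2 : l = rt e c (z k) (z k') k k' := by
          refine F.eq_of_cx hm2 hlsp (Submodule.subset_span h1) fun i => ?_
          rw [hz i, F.cx_rt]
          by_cases hi : i = k
          · subst hi
            rw [if_pos rfl, if_neg hkk.symm]; ring
          · by_cases hi' : i = k'
            · subst hi'
              rw [if_neg hkk, if_pos rfl]; ring
            · rw [hj i hi hi', if_neg (Ne.symm hi), if_neg (Ne.symm hi')]
              push_cast; ring
        rw [h2]; exact h1
      · rw [hl1]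
        rcases F.norm_root ha with h1 | ⟨_, h1⟩
        · rw [h1]
        · rw [h1]
          have : (d : ℝ) ≤ 1 := by exact_mod_cast hd1
          have h0 : (0 : ℝ) ≤ d := by positivity
          have : (d : ℝ) ^ 2 ≤ 1 := by nlinarith
          nlinarith
    rw [F.finrank hm2] at hadj
    have hadjr : (n : ℝ) = m + Φ.card := by rw [hadj]; push_cast; rfl
    have hn0 : (n : ℝ) ≠ 0 := by
      have : 0 < n := by omega
      positivity
    have hs4 : (2 * s : ℝ) = 4 * m - 4 + 2 * d := by
      rw [← hadjr] at hid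
      refine mul_left_cancel₀ hn0 ?_
      linear_combination -hid
    have hs5 : s + 2 = 2 * m + d := by
      have h1 : ((s + 2 : ℕ) : ℝ) = ((2 * m + d : ℕ) : ℝ) := by
        push_cast
        linarith
      exact_mod_cast h1
    have h7 : 2 * n = s ^ 2 + 3 * s + 2 := by
      have h8 : (2 * (n : ℝ)) = (s : ℝ) ^ 2 + 3 * s + 2 := by
        have h9 : (s : ℝ) = 2 * m - 2 + d := by linarith
        rw [hadjr, hcard, h9]
        have : d = 0 ∨ d = 1 := by omega
        rcases this with rfl | rfl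
        · rw [if_pos rfl]
          push_cast
          ring
        · rw [if_neg one_ne_zero]
          push_cast
          ring
      exact_mod_cast h8
    right; right; right; left
    refine ⟨by omega, ?_⟩
    have h6 : 2 * (n - 2 * s) + s + 3 * s = 2 * n := by omega
    omega

end

end AG
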